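import Pool.Agent.W689.Mk.Star

set_option autoImplicit false

/-! # The Markus conjecture if one point of the cover sees all the others

`Sees dev x y`: some geodesic of the cover leads from `x` to `y`. A closed affine manifold with
parallel volume is complete if and only if, in some (or the universal) cover with a developing map,
one single point sees all points. In particular the cover may not be geodesically convex or
star-shaped unless it is the whole affine space.
-/

open Set Topology Pool.Agent.W689.Mk

namespace Pool.Agent.Results.MP_df2bd8_gt.OnePointSeesAll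

/-- `y` is the end point of a geodesic of the affine structure which starts at `x`: a path `c` in the
cover from `x` to `y` which the developing map sends affinely to a segment. -/
def Sees {X E : Type} [TopologicalSpace X] [NormedAddCommGroup E] [NormedSpace ℝ E] (dev : X → E)
    (x y : X) : Prop :=
  ∃ (v : E) (c : ℝ → X), ContinuousOn c (Icc 0 1) ∧ c 0 = x ∧ c 1 = y ∧
    ∀ t ∈ Icc (0 : ℝ) 1, dev (c t) = dev x + t • v

lemma Sees.ex {X E : Type} [TopologicalSpace X] [T2Space X] [NormedAddCommGroup E]
    [NormedSpace ℝ E] {dev : X → E} (hloc : IsLocalHomeomorph dev) {x y : X}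
    (h : Sees dev x y) : ∃ v, Ex dev x v y := by
  obtain ⟨v, c, hc, h0, h1, hd⟩ := h
  obtain ⟨y', hy'⟩ := Geod.ex hloc ⟨c, hc, h0, hd⟩
  refine ⟨v, ?_⟩
  obtain ⟨U, σ, k1, k2, k3, k4, k5⟩ := hy'
  have hm : ∀ t ∈ Icc (0 : ℝ) 1, dev x + t • v ∈ U := by
    intro t ht
    have := k1.convex k2 k4 (a := 1 - t) (b := t) (by linarith [ht.2]) ht.1 (by ring)
    convert this using 1
    rw [smul_add, ← add_assoc, ← add_smul]
    simp
  have hcont : ContinuousOn (fun t : ℝ => σ (dev x + t • v)) (Icc 0 1) :=
    k1.cont.comp (continuous_const.add (continuous_id.smul continuous_const)).continuousOn hm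
  have he : EqOn (fun t : ℝ => σ (dev x + t • v)) c (Icc 0 1) :=
    (T2Space.isSeparatedMap dev).eqOn_of_comp_eqOn hloc.isLocallyInjective isPreconnected_Icc
      hcont hc (fun t ht => by
        simp only [Function.comp_apply]
        rw [k1.inv _ (hm t ht), hd t ht])
      (left_mem_Icc.2 zero_le_one) (by
        show σ (dev x + (0 : ℝ) • v) = c 0
        rw [zero_smul, add_zero, k3, h0])
  have h2 := he (right_mem_Icc.2 zero_le_one)
  simp only [one_smul] at h2
  exact ⟨U, σ, k1, k2, k3, k4, h2.trans h1⟩

/-- **One point that sees all points.** A closed affine manifold with parallel volume is given by a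
connected cover `X` with its group `Γ`, developing map `dev` and holonomy `hol`. The structure is
complete (the developing map is a homeomorphism onto the affine space) if and only if one single
point of the cover sees all points of the cover. -/
theorem result (E X Γ : Type) [NormedAddCommGroup E] [NormedSpace ℝ E] [FiniteDimensional ℝ E]
    [TopologicalSpace X] [T2Space X] [SecondCountableTopology X] [ConnectedSpace X]
    [Group Γ] [MulAction Γ X] (dev : X → E) (hol : Γ →* (E ≃ᵃ[ℝ] E))
    (D : AffData X Γ E dev hol) :
    IsHomeomorph dev ↔ ∃ x : X, ∀ y : X, Sees dev x y := by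
  constructor
  · intro h
    obtain ⟨x⟩ : Nonempty X := inferInstance
    refine ⟨x, fun y => ?_⟩
    let e := h.homeomorph
    refine ⟨dev y - dev x, fun t => e.symm (dev x + t • (dev y - dev x)), ?_, ?_, ?_, ?_⟩
    · exact (e.symm.continuous.comp (by fun_prop)).continuousOn
    · show e.symm (dev x + (0 : ℝ) • (dev y - dev x)) = x
      rw [zero_smul, add_zero]
      exact e.symm_apply_apply x
    · show e.symm (dev x + (1 : ℝ) • (dev y - dev x)) = y
      rw [one_smul, add_sub_cancel]
      exact e.symm_apply_apply y
    · intro t _
      exact e.apply_symm_apply (dev x + t • (dev y - dev x))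
  · rintro ⟨x, hx⟩
    exact visible_complete D fun y => (hx y).ex D.loc

end Pool.Agent.Results.MP_df2bd8_gt.OnePointSeesAll
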